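import Pool.Agent.H9.CR2

set_option autoImplicit false

namespace Pool.Agent.Results.MP_fbe9f6_co.Full

open Pool.Agent.H9.CR

theorem result : ∀ (n : ℕ) (G : SimpleGraph (Fin n)), 2 ≤ n → G.IsBipartite →
    ∀ l : ℕ, 2 ≤ l → ∃ (m : ℕ) (H : SimpleGraph (Fin m)),
      H.chromaticNumber = l ∧ freeChi H G = l := by
  intro n G hn hG l hl
  obtain ⟨m, H, h1, h2⟩ := bip_related G (by simpa using hn) hG l (by omega)
  exact ⟨m, H, freeChi_top_two H l h2, h1⟩

end Pool.Agent.Results.MP_fbe9f6_co.Full
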